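import Pool.Agent.P.MP_e9218d_nt.Small
import Pool.Agent.P.MP_e9218d_nt.Andrews
import Pool.Agent.P.MP_e9218d_nt.Sporadic3
import Pool.Agent.P.MP_e9218d_nt.Nec5F
import Pool.Agent.P.MP_e9218d_nt.Nec6
import Pool.Agent.P.MP_e9218d_nt.Nec7

namespace Pool.Agent.Results.MP_e9218d_nt.MostModuli

/-- the index `j ∈ {1,…,M}` with `e ≡ j (mod M)` -/
def idx (M e : ℕ) : ℕ := if e % M = 0 then M else e % M

/-- `A(a_1,…,a_s;M;n)`: partitions of `n` into distinct parts, each congruent to some `a i` mod `M` -/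
noncomputable def cntA (M : ℕ) {s : ℕ} (a : Fin s → ℕ) (n : ℕ) : ℕ :=
  Set.ncard {p : n.Partition | p.parts.Nodup ∧ ∀ e ∈ p.parts, ∃ i, e ≡ a i [MOD M]}

/-- `B_0(b_1,…,b_M;M;C;n)`: partitions of `n` with no part in `C` such that consecutive parts
`e ≥ f` satisfy `e - f ≥ b j`, where `j ∈ {1,…,M}`, `j ≡ e (mod M)` -/
noncomputable def cntB (M : ℕ) (b : ℕ → ℕ) (C : Set ℕ) (n : ℕ) : ℕ :=
  Set.ncard {p : n.Partition | (∀ e ∈ p.parts, e ∉ C) ∧
    (p.parts.sort (· ≥ ·)).IsChain (fun e f => f + b (idx M e) ≤ e)}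

/-- the residues `M - 2^j`, `0 ≤ j < s` -/
def res (M s : ℕ) : Fin s → ℕ := fun j => M - 2 ^ (j : ℕ)

/-- the set `C` of positive `m` with `A(m) = 0` -/
def forb (M s : ℕ) : Set ℕ := {m | 1 ≤ m ∧ cntA M (res M s) m = 0}

/-- number of ones in the binary expansion -/
def omega (m : ℕ) : ℕ := (Nat.digits 2 m).count 1

/-- smallest power of two in the binary expansion -/
def lowv (m : ℕ) : ℕ := 2 ^ padicValNat 2 m

/-- the vector of Andrews; `idx M (M - j)` is the least positive residue of `-j` for `1 ≤ j ≤ M` -/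
def andrews (M j : ℕ) : ℕ :=
  M * omega (idx M (M - j)) + lowv (idx M (M - j)) - idx M (M - j)

theorem result (M s : ℕ) (b : ℕ → ℕ) (hs : 1 ≤ s) (hM : 2 ^ (s - 1) ≤ M)
    (hx : s ≤ 5 ∨ M = 2 ^ (s - 1) ∨ 2 ^ s ≤ M ∨ 3 ≤ omega (2 ^ s - M) ∨ (s = 6 ∧ M ≤ 60))
    (hb : ∀ j, 1 ≤ j → j ≤ M → 0 < b j) :
    (∀ n, 1 ≤ n → cntA M (res M s) n = cntB M b (forb M s) n) ↔
      ((M + 1 = 2 ^ s ∧ ∀ j, 1 ≤ j → j ≤ M → b j = andrews M j) ∨
        (M, s, (List.range M).map (fun i => b (i + 1))) ∈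
          [(2, 1, [6, 7]), (2, 2, [1, 1]), (3, 2, [3, 2, 5]), (4, 3, [3, 2, 3, 2]),
            (4, 3, [4, 1, 4, 1]), (6, 3, [7, 6, 7, 6, 6, 7]), (6, 3, [7, 6, 7, 6, 5, 8])]) := by
  constructor
  · intro h
    rcases Nat.lt_or_ge s 5 with h4 | h5
    · exact Pool.Agent.P.MP_e9218d_nt.small_nec_all hs (by omega) hM hb h
    rcases Nat.eq_or_lt_of_le h5 with h5' | h6
    · subst h5'
      exact Pool.Agent.P.MP_e9218d_nt.nec_5 hM hb h
    rcases Nat.eq_or_lt_of_le hM with hK | hK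
    · exact absurd h (Pool.Agent.P.MP_e9218d_nt.nec7 h5 hK.symm hb)
    rcases Nat.lt_or_ge M (2 ^ s) with hlt | hge
    · rcases hx with hx | hx | hx | hx | ⟨hx, hx'⟩
      · omega
      · omega
      · omega
      · exact absurd h (Pool.Agent.P.MP_e9218d_nt.nec5 h5 hK hlt hx hb)
      · subst hx
        exact absurd h (Pool.Agent.P.MP_e9218d_nt.nec_6' hM (Or.inl (by omega)) hb)
    rcases Nat.lt_or_ge M (2 ^ s + 2) with h2 | h2
    · exact absurd h (Pool.Agent.P.MP_e9218d_nt.nec6 h5 (by omega) hb)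
    · exact absurd h (Pool.Agent.P.MP_e9218d_nt.nec4 h5 h2)
  · rintro (⟨h1, h2⟩ | h)
    · exact Pool.Agent.P.MP_e9218d_nt.andrews_ident hs h1 h2
    · exact Pool.Agent.P.MP_e9218d_nt.sporadic_ident h

end Pool.Agent.Results.MP_e9218d_nt.MostModuli
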